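import Pool.Agent.J6H67.CG.Stm

/-!
# Sieves by the primes up to a multiple of the logarithm
-/

set_option autoImplicit false

namespace Pool.Agent.J6H92.CG

open MeasureTheory Filter Finset
open scoped Topology
open Pool.Agent.J6H39.RS Pool.Agent.J6H67.CG

theorem half_ge {c : ℝ} {g : ℕ} (h : 4 ≤ c * √(g : ℝ)) :
    Real.exp (c * √(g : ℝ) / 2) ≤ ((XX c g / 2 : ℕ) : ℝ) := by
  obtain ⟨e, he⟩ : ∃ e, e = Real.exp (c * √(g : ℝ) / 2) := ⟨_, rfl⟩
  have h1 : Real.exp (c * √(g : ℝ)) = e ^ 2 := by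
    rw [he, ← Real.exp_nat_mul]
    congr 1
    push_cast
    ring
  have h2 : 3 ≤ e := by
    rw [he]
    have := Real.add_one_le_exp (c * √(g : ℝ) / 2)
    linarith
  have h3 : e ^ 2 < (XX c g : ℝ) + 1 := by
    rw [← h1]
    exact Nat.lt_floor_add_one _
  have h4 : (XX c g : ℝ) ≤ 2 * ((XX c g / 2 : ℕ) : ℝ) + 1 := by
    have : XX c g ≤ 2 * (XX c g / 2) + 1 := by omega
    exact_mod_cast this
  rw [← he]
  nlinarith

theorem t_TH3 (h : S_PNP) : S_TH3 := by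
  intro κ hκ z hz c hc η hη
  have hlog4 : 0 < Real.log 4 := Real.log_pos (by norm_num)
  obtain ⟨s, hs⟩ : ∃ s : ℝ, s = min (1 / 2) (min (κ * c / 2) (η * c / (2 * Real.log 4))) := ⟨_, rfl⟩
  have hs0 : 0 < s := by
    rw [hs]
    exact lt_min (by norm_num) (lt_min (by positivity) (by positivity))
  have hs1 : s < 1 := by
    rw [hs]
    exact lt_of_le_of_lt (min_le_left _ _) (by norm_num)
  have hs2 : s ≤ κ * c / 2 := by
    rw [hs]
    exact (min_le_right _ _).trans (min_le_left _ _)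
  have hs3 : s * Real.log 4 ≤ η * c / 2 := by
    have h1 : s ≤ η * c / (2 * Real.log 4) := by
      rw [hs]
      exact (min_le_right _ _).trans (min_le_right _ _)
    calc s * Real.log 4 ≤ η * c / (2 * Real.log 4) * Real.log 4 :=
          mul_le_mul_of_nonneg_right h1 hlog4.le
      _ = η * c / 2 := by field_simp
  have ht : Tendsto (fun g : ℕ => c * √(g : ℝ)) atTop atTop :=
    (Real.tendsto_sqrt_atTop.comp tendsto_natCast_atTop_atTop).const_mul_atTop hc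
  have hX : Tendsto (fun g : ℕ => XX c g / 2) atTop atTop := by
    rw [← tendsto_natCast_atTop_iff (R := ℝ)]
    refine tendsto_atTop_mono' atTop ?_ (Real.tendsto_exp_atTop.comp
      (ht.atTop_div_const (by norm_num : (0 : ℝ) < 2)))
    filter_upwards [ht.eventually_ge_atTop 4] with g hg
    exact half_ge hg
  filter_upwards [h s η hs0 hs1 hη, hX.eventually hz, ht.eventually_ge_atTop 4] with g h1 h2 h3
  have hhalf := half_ge h3
  have hsq : 0 ≤ √(g : ℝ) := Real.sqrt_nonneg _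
  have hy : ((⌊s * √(g : ℝ)⌋₊ : ℕ) : ℝ) ≤ s * √(g : ℝ) := Nat.floor_le (by positivity)
  refine ⟨(Icc 1 ⌊s * √(g : ℝ)⌋₊).filter Nat.Prime, ?_, ?_, h1⟩
  · intro p hp
    rw [mem_filter, mem_Icc] at hp
    refine ⟨hp.2, hp.1.2.trans ?_⟩
    have h4 : c * √(g : ℝ) / 2 ≤ Real.log ((XX c g / 2 : ℕ) : ℝ) := by
      rw [Real.le_log_iff_exp_le (lt_of_lt_of_le (Real.exp_pos _) hhalf)]
      exact hhalf
    have h5 : s * √(g : ℝ) ≤ κ * (c * √(g : ℝ) / 2) := by
      have := mul_le_mul_of_nonneg_right hs2 hsq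
      linarith
    have h6 : ((⌊s * √(g : ℝ)⌋₊ : ℕ) : ℝ) ≤ (z (XX c g / 2) : ℝ) :=
      hy.trans (h5.trans ((mul_le_mul_of_nonneg_left h4 hκ.le).trans h2))
    exact_mod_cast h6
  · have h4 : (∏ p ∈ (Icc 1 ⌊s * √(g : ℝ)⌋₊).filter Nat.Prime, p) = primorial ⌊s * √(g : ℝ)⌋₊ := by
      unfold primorial
      refine prod_congr ?_ fun _ _ => rfl
      ext p
      rw [mem_filter, mem_filter, mem_Icc, mem_range]
      constructor
      · rintro ⟨⟨_, h5⟩, h6⟩
        exact ⟨by omega, h6⟩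
      · rintro ⟨h5, h6⟩
        exact ⟨⟨h6.one_lt.le, by omega⟩, h6⟩
    have h5 : ((∏ p ∈ (Icc 1 ⌊s * √(g : ℝ)⌋₊).filter Nat.Prime, p : ℕ) : ℝ) ≤
        4 ^ ⌊s * √(g : ℝ)⌋₊ := by
      rw [h4]
      exact_mod_cast primorial_le_four_pow _
    refine h5.trans ?_
    have h6 : (4 : ℝ) ^ ⌊s * √(g : ℝ)⌋₊ ≤ Real.exp (η * (c * √(g : ℝ) / 2)) := by
      have h7 : (4 : ℝ) ^ ⌊s * √(g : ℝ)⌋₊ = Real.exp (⌊s * √(g : ℝ)⌋₊ * Real.log 4) := by
        rw [Real.exp_nat_mul, Real.exp_log (by norm_num)]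
      rw [h7]
      apply Real.exp_le_exp.2
      calc (⌊s * √(g : ℝ)⌋₊ : ℝ) * Real.log 4 ≤ s * √(g : ℝ) * Real.log 4 :=
            mul_le_mul_of_nonneg_right hy hlog4.le
        _ = s * Real.log 4 * √(g : ℝ) := by ring
        _ ≤ η * c / 2 * √(g : ℝ) := mul_le_mul_of_nonneg_right hs3 hsq
        _ = η * (c * √(g : ℝ) / 2) := by ring
    refine h6.trans ?_
    have h8 : Real.exp (c * √(g : ℝ) / 2) ≤ (XX c g : ℝ) := by
      refine hhalf.trans ?_
      exact_mod_cast Nat.div_le_self _ _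
    calc Real.exp (η * (c * √(g : ℝ) / 2)) = Real.exp (c * √(g : ℝ) / 2) ^ η := by
          rw [← Real.exp_mul, mul_comm]
      _ ≤ (XX c g : ℝ) ^ η := Real.rpow_le_rpow (Real.exp_pos _).le h8 hη.le

end Pool.Agent.J6H92.CG
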